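import Pool.Agent.MP_6a4325_al.H62.Base2

/-!
Row BIG: finitely generated subgroups that have finite index in all finitely generated
overgroups.
-/

set_option autoImplicit false

namespace Pool.Agent.MP_6a4325_al.H80

open Pool.Agent.MP_6a4325_al.H62

section

variable {G : Type} [Group G]

theorem fg_zpowers (t : G) : (Subgroup.zpowers t).FG :=
  (Subgroup.fg_iff _).2 ⟨{t}, (Subgroup.zpowers_eq_closure t).symm, Set.finite_singleton t⟩

theorem big_rel {Γ : Subgroup G} (h : Big Γ) {H : Subgroup G} (hH : H.FG) : Γ.relIndex H ≠ 0 :=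
  fun e => h.2 (H ⊔ Γ) (hH.sup h.1) le_sup_right
    (Subgroup.relIndex_eq_zero_of_le_right le_sup_left e)

/-- a finitely generated torsion subgroup of a commutative group is finite -/
theorem finite_of_fg {A : Type} [CommGroup A] (B : Subgroup A) (hB : B.FG)
    (ht : ∀ b ∈ B, ∃ m : ℕ, 0 < m ∧ b ^ m = 1) : Finite B := by
  have : Group.FG B := (Group.fg_iff_subgroup_fg _).2 hB
  refine CommGroup.finite_of_fg_isMulTorsion B fun b => ?_
  obtain ⟨m, hm, e⟩ := ht b b.2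
  exact isOfFinOrder_iff_pow_eq_one.2 ⟨m, hm, Subtype.ext e⟩

theorem rel_of_hom {A : Type} [CommGroup A] {L L' H : Subgroup G} (f : L' →* A)
    (hf : f.ker = L.subgroupOf L') (hH : H.FG) (hle : H ≤ L')
    (ht : ∀ x : L', ∃ m : ℕ, 0 < m ∧ f x ^ m = 1) : L.relIndex H ≠ 0 := by
  have h1 : (H.subgroupOf L').FG := fg_of_map_inj L'.subtype L'.subtype_injective (by
    rwa [Subgroup.subgroupOf_map_subtype, inf_eq_left.2 hle])
  have h2 : Finite ((H.subgroupOf L').map f) := finite_of_fg _ (H7.fg_map h1 f) (by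
    rintro _ ⟨x, _, rfl⟩
    exact ht x)
  rw [← Subgroup.relIndex_subgroupOf hle, ← hf, Subgroup.relIndex_ker]
  exact Nat.card_pos.ne'

theorem ex_step {p : ℕ} [Fact p.Prime] (hloc : LocNoeth G) {L L' : Subgroup G} (h : Fac p L L')
    (ih : ∃ Γ : Subgroup G, Γ ≤ L ∧ Γ.FG ∧ ∀ H : Subgroup G, H.FG → H ≤ L → Γ.relIndex H ≠ 0) :
    ∃ Γ : Subgroup G, Γ ≤ L' ∧ Γ.FG ∧ ∀ H : Subgroup G, H.FG → H ≤ L' → Γ.relIndex H ≠ 0 := by
  obtain ⟨Γ, hΓ, hfg, hrel⟩ := ih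
  obtain ⟨hle, f, hf, hc | hc⟩ := h
  · obtain ⟨⟨_, t, rfl⟩, ht⟩ := hc.exists_generator
    have hΓ' : Γ ⊔ Subgroup.zpowers (t : G) ≤ L' :=
      sup_le (hΓ.trans hle) (Subgroup.zpowers_le.2 t.2)
    refine ⟨Γ ⊔ Subgroup.zpowers (t : G), hΓ', hfg.sup (fg_zpowers _), fun H hH hHL e => ?_⟩
    let H₁ : Subgroup G := H ⊔ (Γ ⊔ Subgroup.zpowers (t : G))
    have h1 : H₁.FG := hH.sup (hfg.sup (fg_zpowers _))
    have h2 : H₁ ≤ L' := sup_le hHL hΓ'
    have h3 : Γ.relIndex (H₁ ⊓ L) ≠ 0 := hrel _ (hloc _ h1 _ inf_le_left) inf_le_right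
    have h4 : Finite ((H₁ ⊓ L : Subgroup G) ⧸ Γ.subgroupOf (H₁ ⊓ L)) :=
      Subgroup.index_ne_zero_iff_finite.1 h3
    have h5 : Finite (H₁ ⧸ (Γ ⊔ Subgroup.zpowers (t : G)).subgroupOf H₁) := by
      refine Finite.of_surjective
        (fun q : (H₁ ⊓ L : Subgroup G) ⧸ Γ.subgroupOf (H₁ ⊓ L) =>
          (QuotientGroup.mk (Subgroup.inclusion inf_le_left q.out) :
            H₁ ⧸ (Γ ⊔ Subgroup.zpowers (t : G)).subgroupOf H₁)) fun q => ?_
      obtain ⟨x, rfl⟩ := QuotientGroup.mk_surjective q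
      obtain ⟨a, ha⟩ := ht ⟨f ⟨x, h2 x.2⟩, _, rfl⟩
      have ha' : f t ^ a = f ⟨x, h2 x.2⟩ := congrArg Subtype.val ha
      have h6 : (⟨x, h2 x.2⟩ : L') * (t ^ a)⁻¹ ∈ L.subgroupOf L' := by
        rw [← hf, MonoidHom.mem_ker, map_mul, map_inv, map_zpow, ha', mul_inv_cancel]
      have h7 : (t : G) ^ a ∈ Γ ⊔ Subgroup.zpowers (t : G) :=
        Subgroup.mem_sup_right (Subgroup.zpow_mem_zpowers _ a)
      let l : (H₁ ⊓ L : Subgroup G) :=
        ⟨x * ((t : G) ^ a)⁻¹, H₁.mul_mem x.2 (H₁.inv_mem (Subgroup.mem_sup_right h7)), h6⟩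
      obtain ⟨γ, hγ⟩ := QuotientGroup.mk_out_eq_mul (Γ.subgroupOf (H₁ ⊓ L)) l
      refine ⟨QuotientGroup.mk l, QuotientGroup.eq.2 ?_⟩
      rw [hγ]
      change ((x : G) * ((t : G) ^ a)⁻¹ * (γ.1 : G))⁻¹ * x ∈ Γ ⊔ Subgroup.zpowers (t : G)
      rw [mul_inv_rev, mul_inv_rev, inv_inv, mul_assoc, inv_mul_cancel_right]
      exact mul_mem (inv_mem (Subgroup.mem_sup_left γ.2)) h7
    exact Subgroup.index_ne_zero_iff_finite.2 h5
      (Subgroup.relIndex_eq_zero_of_le_right (L := H₁) le_sup_left e)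
  · refine ⟨Γ, hΓ.trans hle, hfg, fun H hH hHL => ?_⟩
    refine Subgroup.relIndex_ne_zero_trans
      (hrel (H ⊓ L) (hloc _ hH _ inf_le_left) inf_le_right) ?_
    rw [Subgroup.inf_relIndex_left]
    exact rel_of_hom f hf hH hHL fun x =>
      (hc x).elim fun j hj => ⟨p ^ j, pow_pos (Fact.out : p.Prime).pos j, hj⟩

theorem big_ex {p : ℕ} [Fact p.Prime] (Z : Subgroup G) (hloc : LocNoeth G) (hZ : Cm Z ⊤)
    (hr : FinRk Z) (hS : Ser p Z ⊤) : ∃ Γ : Subgroup G, Big Γ := by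
  have key : ∀ L : Subgroup G, Ser p Z L → ∃ Γ : Subgroup G, Γ ≤ L ∧ Γ.FG ∧
      ∀ H : Subgroup G, H.FG → H ≤ L → Γ.relIndex H ≠ 0 := fun L hL => by
    induction hL with
    | refl =>
      obtain ⟨T, hT, hp⟩ := hr
      have hc : Cm Z Z := fun a ha b _ => hZ a ha b trivial
      let _ := hc.commGroup
      refine ⟨Subgroup.closure ↑T, (Subgroup.closure_le _).2 hT, ⟨T, rfl⟩, fun H hH hle => ?_⟩
      refine rel_of_hom (QuotientGroup.mk' ((Subgroup.closure (↑T : Set G)).subgroupOf Z))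
        (QuotientGroup.ker_mk' _) hH hle fun x => ?_
      obtain ⟨m, hm, e⟩ := hp x x.2
      exact ⟨m, hm, by
        rw [← map_pow]
        exact (QuotientGroup.eq_one_iff (x ^ m)).2 e⟩
    | tail _ h ih => exact ex_step hloc h ih
  obtain ⟨Γ, _, h1, h2⟩ := key ⊤ hS
  exact ⟨Γ, h1, fun H hH _ => h2 H hH le_top⟩

end

theorem big : SSer → SBig := fun hSer p _ =>
  { ex := fun _ _ Z => big_ex Z
    up := fun _ _ _ H h hH hle => ⟨hH, fun H' hH' _ e =>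
      big_rel h hH' (Subgroup.relIndex_eq_zero_of_le_left hle e)⟩
    pow := fun _ _ _ h g => by
      obtain ⟨m, hm, _, e⟩ := Subgroup.exists_pow_mem_of_relIndex_ne_zero
        (big_rel h (fg_zpowers g)) (Subgroup.mem_zpowers g)
      exact ⟨m, hm, e.1⟩
    clSub := fun G _ Z N Z' ⟨hsol, hloc, ⟨Γ, hΓ⟩, _, hS⟩ h1 _ h3 => by
      refine ⟨inferInstance, hloc.sub N, ⟨Γ.subgroupOf N, ?_, fun H hH _ => ?_⟩,
        fun a ha b _ => Subtype.ext (h3 a ha b b.2), ?_⟩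
      · refine fg_of_map_inj N.subtype N.subtype_injective ?_
        rw [Subgroup.subgroupOf_map_subtype]
        exact hloc _ hΓ.1 _ inf_le_left
      · rw [Subgroup.subgroupOf, Subgroup.relIndex_comap]
        exact big_rel hΓ (H7.fg_map hH _)
      · refine (hSer p).up N (Z.subgroupOf N) _ ⊤ (fun x hx => h1 ⟨hx, x.2⟩) le_top
          (fun a _ b hb => ?_) ((hSer p).comap G N N.subtype Z ⊤ hS)
        have h4 : a * b = b * a := Subtype.ext (h3 b hb a a.2).symm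
        rwa [h4, mul_inv_cancel_right]
    clQuot := fun G Q _ _ f hf Z ⟨hsol, hloc, ⟨Γ, hΓ⟩, hZ, hS⟩ => by
      refine ⟨Group.isSolvable_of_surjective hf, hloc.of_surj f hf,
        ⟨Γ.map f, H7.fg_map hΓ.1 f, fun H hH _ e => ?_⟩, ?_, ?_⟩
      · obtain ⟨H', h1, rfl⟩ := exists_fg_lift f hf hH
        rw [← Subgroup.relIndex_comap] at e
        exact big_rel hΓ h1 (Subgroup.relIndex_eq_zero_of_le_left (Subgroup.le_comap_map f Γ) e)
      · rintro _ ⟨a, ha, rfl⟩ b _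
        obtain ⟨b, rfl⟩ := hf b
        rw [← map_mul, hZ a ha b trivial, map_mul]
      · have h1 := (hSer p).map G Q f Z ⊤ hS
        rwa [Subgroup.map_top_of_surjective f hf] at h1 }

end Pool.Agent.MP_6a4325_al.H80
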