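import Pool.Agent.MP_6a4325_al.H62.Base2

/-!
Row STEP: in a faithful irreducible representation, an abelian normal subgroup that contains the
given central subgroup has a centraliser of finite index.
-/

set_option autoImplicit false

namespace Pool.Agent.MP_6a4325_al.H80

open Pool.Agent.MP_6a4325_al.H62

section

variable {G k : Type} [Group G] [Field k]

/-- the conjugate of a character of a normal subgroup -/
def cj (A : Subgroup G) [A.Normal] (g : G) (χ : A →* kˣ) : A →* kˣ :=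
  χ.comp (MulAut.conjNormal g⁻¹ : MulAut A).toMonoidHom

theorem cj_apply (A : Subgroup G) [A.Normal] (g : G) (χ : A →* kˣ) (a : A) :
    cj A g χ a = χ (MulAut.conjNormal g⁻¹ a) := rfl

theorem cj_mul (A : Subgroup G) [A.Normal] (g h : G) (χ : A →* kˣ) :
    cj A (g * h) χ = cj A g (cj A h χ) := by
  ext a
  simp only [cj_apply, mul_inv_rev, map_mul, MulAut.mul_apply]

theorem cj_one (A : Subgroup G) [A.Normal] (χ : A →* kˣ) : cj A 1 χ = χ := by
  ext a
  simp only [cj_apply, inv_one, map_one, MulAut.one_apply]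

theorem conj_central {A Z : Subgroup G} [A.Normal] (hZ : Cm Z ⊤) (g : G) (a : A)
    (ha : (a : G) ∈ Z) : MulAut.conjNormal g a = a := by
  apply Subtype.ext
  rw [MulAut.conjNormal_apply, ← hZ a ha g trivial, mul_inv_cancel_right]

theorem central_conj {A Z : Subgroup G} [A.Normal] (hZ : Cm Z ⊤) {z : G} (hz : z ∈ Z) (a : A) :
    MulAut.conjNormal z⁻¹ a = a := by
  apply Subtype.ext
  rw [MulAut.conjNormal_apply, inv_inv, mul_assoc, ← hZ z hz a trivial, inv_mul_cancel_left]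

/-- the characters of `A` that are trivial on `Z` -/
def XZ (k : Type) [Field k] (A Z : Subgroup G) : Subgroup (A →* kˣ) where
  carrier := {χ | ∀ a : A, (a : G) ∈ Z → χ a = 1}
  mul_mem' := fun {x y} hx hy a ha => by rw [MonoidHom.mul_apply, hx a ha, hy a ha, one_mul]
  one_mem' := fun _ _ => rfl
  inv_mem' := fun {x} hx a ha => by rw [MonoidHom.inv_apply, hx a ha, inv_one]

theorem cj_mem {A Z : Subgroup G} [A.Normal] (hZ : Cm Z ⊤) (g : G) (x : XZ k A Z) :
    cj A g x.1 ∈ XZ k A Z := fun a ha => by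
  rw [cj_apply, conj_central hZ _ a ha]
  exact x.2 a ha

/-- the action of the group on the characters trivial on a central subgroup -/
def act {A Z : Subgroup G} [A.Normal] (hZ : Cm Z ⊤) : G →* MulAut (XZ k A Z) where
  toFun g :=
    { toFun := fun x => ⟨cj A g x.1, cj_mem hZ g x⟩
      invFun := fun x => ⟨cj A g⁻¹ x.1, cj_mem hZ g⁻¹ x⟩
      left_inv := fun x => Subtype.ext (by
        change cj A g⁻¹ (cj A g x.1) = x.1
        rw [← cj_mul, inv_mul_cancel, cj_one])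
      right_inv := fun x => Subtype.ext (by
        change cj A g (cj A g⁻¹ x.1) = x.1
        rw [← cj_mul, mul_inv_cancel, cj_one])
      map_mul' := fun _ _ => rfl }
  map_one' := MulEquiv.ext fun x => Subtype.ext (cj_one A x.1)
  map_mul' g h := MulEquiv.ext fun x => Subtype.ext (cj_mul A g h x.1)

theorem unit_pow_char (p : ℕ) [Fact p.Prime] [CharP k p] (u : kˣ) (h : u ^ p = 1) : u = 1 := by
  apply Units.ext
  have h1 : (u : k) ^ p = 1 := by rw [← Units.val_pow_eq_pow_val, h, Units.val_one]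
  have h2 : ((u : k) - 1) ^ p = 0 := by rw [sub_pow_char, h1, one_pow, sub_self]
  exact sub_eq_zero.1 (pow_eq_zero_iff (Fact.out : p.Prime).ne_zero |>.1 h2)

/-- every character of `A` is fixed by a normal subgroup of finite index, together with all of
its conjugates -/
theorem fin_orbit {p : ℕ} [Fact p.Prime] [CharP k p] (hH : HomApi p k) {A Z : Subgroup G}
    [A.Normal] (hZ : Cm Z ⊤) (hS : Ser p Z ⊤) (hSA : Ser p Z A) (ψ : A →* kˣ) :
    ∃ N : Subgroup G, N.FiniteIndex ∧ ∀ n ∈ N, ∀ g, cj A n (cj A g ψ) = cj A g ψ := by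
  let δ : G → XZ k A Z := fun g => ⟨cj A g ψ / ψ, fun a ha => by
    rw [MonoidHom.div_apply, cj_apply, conj_central hZ _ a ha, div_self']⟩
  have hfin : (Set.range δ).Finite := by
    refine hH.coc G (XZ k A Z) Z hS (fun x => ?_) (fun m hm => ?_) (fun x hx => ?_) (act hZ) δ
      (fun g h => ?_) (fun z hz => ?_)
    · have h1 : Finite x.1.range := (hH.range G Z A hSA x.1 x.2).to_subtype
      refine isOfFinOrder_iff_pow_eq_one.2 ⟨Nat.card x.1.range, Nat.card_pos, Subtype.ext ?_⟩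
      ext a
      have h2 : (⟨x.1 a, a, rfl⟩ : x.1.range) ^ Nat.card x.1.range = 1 := pow_card_eq_one'
      exact congrArg (fun y : x.1.range => ((y : kˣ) : k)) h2
    · refine Set.Finite.of_finite_image (f := Subtype.val)
        ((hH.tors G Z A hSA m hm).subset ?_) Subtype.val_injective.injOn
      rintro _ ⟨x, hx, rfl⟩
      exact ⟨x.2, fun a => congrArg (fun y : XZ k A Z => y.1 a) hx⟩
    · refine Subtype.ext (MonoidHom.ext fun a => unit_pow_char p _ ?_)
      exact congrArg (fun y : XZ k A Z => y.1 a) hx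
    · refine Subtype.ext (MonoidHom.ext fun a => ?_)
      change cj A (g * h) ψ a / ψ a = cj A g ψ a / ψ a * (cj A g (cj A h ψ) a / cj A g ψ a)
      rw [cj_mul, mul_comm, div_mul_div_cancel]
    · refine Subtype.ext (MonoidHom.ext fun a => ?_)
      change ψ (MulAut.conjNormal z⁻¹ a) / ψ a = 1
      rw [central_conj hZ hz, div_self']
  let N : Subgroup G :=
    { carrier := {g | cj A g ψ = ψ}
      mul_mem' := fun {x y} hx hy => by
        change cj A (x * y) ψ = ψ
        rw [cj_mul, hy, hx]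
      one_mem' := cj_one A ψ
      inv_mem' := fun {x} hx => by
        change cj A x⁻¹ ψ = ψ
        conv_lhs => rw [← hx]
        rw [← cj_mul, inv_mul_cancel, cj_one] }
  have key : ∀ g h, δ g = δ h → g⁻¹ * h ∈ N := fun g h e => by
    have h1 : cj A g ψ = cj A h ψ := div_left_injective (congrArg Subtype.val e)
    change cj A (g⁻¹ * h) ψ = ψ
    rw [cj_mul, ← h1, ← cj_mul, inv_mul_cancel, cj_one]
  have h2 : Finite (G ⧸ N) := by
    have := hfin.to_subtype
    refine Finite.of_surjective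
      (fun x : Set.range δ => (QuotientGroup.mk x.2.choose : G ⧸ N)) fun q => ?_
    obtain ⟨g, rfl⟩ := QuotientGroup.mk_surjective q
    exact ⟨⟨δ g, g, rfl⟩, QuotientGroup.eq.2 (key _ _ (Exists.choose_spec (⟨g, rfl⟩ :
      ∃ y, δ y = δ g)))⟩
  have h3 : N.FiniteIndex := Subgroup.finiteIndex_of_finite_quotient
  refine ⟨N.normalCore, inferInstance, fun n hn g => ?_⟩
  have h4 : cj A (g⁻¹ * n * g⁻¹⁻¹) ψ = ψ := hn g⁻¹
  rw [inv_inv] at h4
  conv_rhs => rw [← h4]
  rw [← cj_mul, ← cj_mul, ← mul_assoc, mul_inv_cancel_left]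

end

theorem stepA : SKey → SScal → SCh → SHom → SSer → SBig → SStepA := by
  intro hKey hScal hCh hHom hSer hBig p _ k G M _ _ _ _ _ _ ρ habs Z hCl hirr hinj A hAn hA hZA
  obtain ⟨hsol, hloc, ⟨Γ, hΓ⟩, hZ, hS⟩ := hCl
  have hH := hHom p k habs
  have hC := hCh p k
  have hSe := hSer p
  have : Nontrivial M := hirr.1
  -- the scalars
  have hsc : ∀ z : Z, ∃ c : kˣ, ρ z = (c : k) • (1 : M →ₗ[k] M) := fun z => by
    obtain ⟨c, hc⟩ := hScal p k G M ρ habs hsol hloc ⟨Γ, hΓ⟩ hirr z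
      (Subgroup.mem_center_iff.2 fun g => (hZ z z.2 g trivial).symm)
    refine ⟨Units.mk0 c fun e => ?_, hc⟩
    obtain ⟨v, hv⟩ := exists_ne (0 : M)
    have h1 := rep_inv ρ z v
    rw [hc, e, zero_smul, LinearMap.zero_apply, map_zero] at h1
    exact hv h1.symm
  choose c hc using hsc
  have huniq : ∀ a b : k, a • (1 : M →ₗ[k] M) = b • 1 → a = b := fun a b e =>
    smul_left_injective k (one_ne_zero (α := M →ₗ[k] M)) e
  let lam : Z →* kˣ := MonoidHom.mk' c fun x y => Units.ext (huniq _ _ (by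
    rw [← hc, Subgroup.coe_mul, map_mul, hc, hc, Units.val_mul, smul_mul_smul_comm, mul_one]))
  have hlam : ∀ z : Z, lam z = 1 → (z : G) = 1 := fun z e => hinj (by
    have e' : c z = 1 := e
    rw [hc, e', map_one, Units.val_one, one_smul])
  -- the subgroup `E`
  obtain ⟨e, he, hk⟩ := hKey p k G M ρ habs hsol hloc hirr Γ A hΓ hAn hA
  have hAΓ : Cm (A ⊓ Γ) (A ⊓ Γ) := fun a ha b hb => hA a ha.1 b hb.1
  let E : Subgroup G := hAΓ.pw e
  have hEA : E ≤ A := (hAΓ.pw_le e).trans inf_le_left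
  have hcen : ∀ R : Subgroup G, R ≤ Z → R.Normal := fun R hR => ⟨fun r hr g => by
    rwa [← hZ r (hR hr) g trivial, mul_inv_cancel_right]⟩
  have hZn : Z.Normal := hcen Z le_rfl
  have hZE : ∀ z ∈ Z, z ∈ E → z = 1 := fun z hz hz' => hinj (by
    rw [map_one]
    refine hk (Z ⊓ E) (hcen _ inf_le_left) (inf_le_left.trans hZA) (fun r hr => ?_) z ⟨hz, hz'⟩
    obtain ⟨a, ha, e'⟩ := hr.2
    exact ⟨0, a, ha.1, ha.2, by rw [pow_zero, pow_one, e']⟩)
  let _ := hA.commGroup
  -- a character that extends the scalars and kills `E`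
  obtain ⟨ψ₀, h0Z, h0E⟩ : ∃ ψ₀ : A →* kˣ, (∀ z : Z, ψ₀ ⟨z, hZA z.2⟩ = lam z) ∧
      ∀ a : A, (a : G) ∈ E → ψ₀ a = 1 := by
    let f : Z →* A ⧸ E.subgroupOf A :=
      (QuotientGroup.mk' (E.subgroupOf A)).comp (Subgroup.inclusion hZA)
    have hf : Function.Injective f := (injective_iff_map_eq_one f).2 fun z hz =>
      Subtype.ext (hZE z z.2 ((QuotientGroup.eq_one_iff (N := E.subgroupOf A)
        (Subgroup.inclusion hZA z)).1 hz))
    obtain ⟨ψ, hψ⟩ := hC.ext (A ⧸ E.subgroupOf A) f.range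
      (lam.comp (MonoidHom.ofInjective hf).symm.toMonoidHom)
    refine ⟨ψ.comp (QuotientGroup.mk' (E.subgroupOf A)), fun z => ?_, fun a ha => ?_⟩
    · have h1 := hψ (MonoidHom.ofInjective hf z)
      rw [MonoidHom.comp_apply, MulEquiv.coe_toMonoidHom, MulEquiv.symm_apply_apply] at h1
      exact h1
    · have h1 : QuotientGroup.mk' (E.subgroupOf A) a = 1 := (QuotientGroup.eq_one_iff _).2 ha
      rw [MonoidHom.comp_apply, h1, map_one]
  -- the finite set of characters trivial on `Z ⊔ E`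
  have hSA : Ser p Z A := by
    have h1 := hSe.inf G Z ⊤ A hS
    rwa [inf_eq_left.2 hZA, top_inf_eq] at h1
  have hDA : Z ⊔ E ≤ A := sup_le hZA hEA
  have hper : ∀ x ∈ A, ∃ m : ℕ, 0 < m ∧ x ^ m ∈ Z ⊔ E := fun x hx => by
    obtain ⟨m, hm, h1⟩ := (hBig p).pow G Γ hΓ x
    exact ⟨m * e, Nat.mul_pos hm he, Subgroup.mem_sup_right
      ⟨x ^ m, ⟨A.pow_mem hx m, h1⟩, pow_mul x m e⟩⟩
  have hY : (XZ k A (Z ⊔ E) : Set (A →* kˣ)).Finite :=
    hH.per G (Z ⊔ E) A (hSe.up G Z (Z ⊔ E) A le_sup_left hDA (fun a ha d hd => by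
      rwa [hA a ha d (hDA hd), mul_inv_cancel_right]) hSA) hper
  -- the common kernel of all conjugates
  let R₀ : Subgroup A :=
    { carrier := {a | ∀ g, ∀ χ ∈ XZ k A (Z ⊔ E), cj A g (ψ₀ * χ) a = 1}
      mul_mem' := fun {x y} hx hy g χ hχ => by rw [map_mul, hx g χ hχ, hy g χ hχ, one_mul]
      one_mem' := fun g χ _ => map_one _
      inv_mem' := fun {x} hx g χ hχ => by rw [map_inv, hx g χ hχ, inv_one] }
  have hR : ∀ r ∈ R₀, r = 1 := fun r hr => Subtype.ext (hinj (by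
    rw [Subgroup.coe_one, map_one]
    refine hk (R₀.map A.subtype) ⟨?_⟩ (Subgroup.map_subtype_le _) ?_ r ⟨r, hr, rfl⟩
    · rintro _ ⟨a, ha, rfl⟩ g
      refine ⟨MulAut.conjNormal g a, fun h χ hχ => ?_, rfl⟩
      have h1 := ha (g⁻¹ * h) χ hχ
      rwa [cj_mul, cj_apply, inv_inv] at h1
    · rintro _ ⟨a, ha, rfl⟩
      have h1 : ψ₀ a = 1 := by
        have h2 := ha 1 1 (one_mem _)
        rwa [cj_one, MonoidHom.mul_apply, MonoidHom.one_apply, mul_one] at h2
      have h2 : ∀ χ ∈ XZ k A (Z ⊔ E), χ a = 1 := fun χ hχ => by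
        have h3 := ha 1 χ hχ
        rwa [cj_one, MonoidHom.mul_apply, h1, one_mul] at h3
      obtain ⟨m, hm, h3⟩ := hper a a.2
      obtain ⟨i, m', h4, h5⟩ :=
        Nat.exists_eq_pow_mul_and_not_dvd hm.ne' p (Fact.out : p.Prime).ne_one
      have h6 : a ^ p ^ i ∈ (Z ⊔ E).subgroupOf A := by
        by_contra h7
        obtain ⟨χ, h8, h9⟩ := hC.sep A ((Z ⊔ E).subgroupOf A) (a ^ p ^ i) h7
          ⟨m', Nat.pos_of_ne_zero fun e => h4 (by simp [e]),
            ((Nat.Prime.coprime_iff_not_dvd Fact.out).2 h4).symm, by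
              rw [← pow_mul, ← h5]; exact h3⟩
        exact h9 (by rw [map_pow, h2 χ h8, one_pow])
      obtain ⟨z, hz, y, hy, h7⟩ := Subgroup.mem_sup_of_normal_left.1 h6
      have h8 : (⟨z, hZA hz⟩ : A) * ⟨y, hEA hy⟩ = a ^ p ^ i := Subtype.ext h7
      have h9 : z = 1 := hlam ⟨z, hz⟩ (by
        have h10 := congrArg ψ₀ h8
        rwa [map_mul, map_pow, h1, one_pow, h0E ⟨y, hEA hy⟩ hy, mul_one, h0Z ⟨z, hz⟩] at h10)
      obtain ⟨b, hb, rfl⟩ := hy
      rw [h9, one_mul] at h7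
      exact ⟨i, b, hb.1, hb.2, congrArg ρ h7.symm⟩))
  choose N hN hN' using fun χ : A →* kˣ => fin_orbit hH hZ hS hSA (ψ₀ * χ)
  have h1 : (⨅ χ ∈ hY.toFinset, N χ).FiniteIndex :=
    Subgroup.finiteIndex_iInf' _ fun χ _ => hN χ
  refine Subgroup.finiteIndex_of_le (H := ⨅ χ ∈ hY.toFinset, N χ) fun n hn => ?_
  refine Subgroup.mem_centralizer_iff.2 fun a ha => ?_
  have h2 : MulAut.conjNormal n⁻¹ (⟨a, ha⟩ : A) * (⟨a, ha⟩ : A)⁻¹ ∈ R₀ := fun g χ hχ => by
    have h3 : n ∈ N χ := by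
      simp only [Subgroup.mem_iInf] at hn
      exact hn χ (hY.mem_toFinset.2 hχ)
    rw [map_mul, ← cj_apply, hN' χ n h3 g, ← map_mul, mul_inv_cancel, map_one]
  have h3 : n⁻¹ * a * n⁻¹⁻¹ * a⁻¹ = 1 := congrArg Subtype.val (hR _ h2)
  rw [inv_inv, mul_inv_eq_one, mul_assoc, inv_mul_eq_iff_eq_mul] at h3
  exact h3

end Pool.Agent.MP_6a4325_al.H80
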